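import Pool.Agent.H5.SupNorm

set_option autoImplicit false

namespace Pool.Agent.Results.MP_0f3a14_an.ExtDelta

open scoped Topology
open Filter Metric Set Pool.Agent.H5 Pool.Agent.H5.Asq Pool.Agent.H5.SupNorm

section defs

variable {X : Type} [NormedAddCommGroup X] [NormedSpace ℝ X]

/-- the slice of the unit ball given by `f` and `α` -/
def slice (f : StrongDual ℝ X) (α : ℝ) : Set X := {y | ‖y‖ ≤ 1 ∧ ‖f‖ - α < f y}

/-- the supremum of the distances from `x` to the points of `A` is two -/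
def Far (x : X) (A : Set X) : Prop := sSup ((fun y => ‖x - y‖) '' A) = 2

/-- Delta-points -/
def Delta (x : X) : Prop :=
  ∀ (f : StrongDual ℝ X) (α : ℝ), f ≠ 0 → 0 < α → x ∈ slice f α → Far x (slice f α)

/-- super Delta-points -/
def SuperDelta (x : X) : Prop :=
  ∀ U : Set (WeakSpace ℝ X), IsOpen U → toWeakSpace ℝ X x ∈ U →
    Far x (closedBall (0 : X) 1 ∩ toWeakSpace ℝ X ⁻¹' U)

/-- `C` is a convex combination of slices of the unit ball -/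
def IsCcs (C : Set X) : Prop :=
  ∃ (n : ℕ) (f : Fin n → StrongDual ℝ X) (α l : Fin n → ℝ),
    (∀ i, f i ≠ 0 ∧ 0 < α i ∧ 0 < l i) ∧ ∑ i, l i = 1 ∧
      C = {z | ∃ y : Fin n → X, (∀ i, y i ∈ slice (f i) (α i)) ∧ z = ∑ i, l i • y i}

/-- ccs Delta-points -/
def CcsDelta (x : X) : Prop := ∀ C : Set X, IsCcs C → x ∈ C → Far x C

omit [NormedSpace ℝ X] in
lemma not_far {x : X} {A : Set X} (hx : x ∈ A) (h : ∀ y ∈ A, ‖x - y‖ ≤ 7 / 4) : ¬ Far x A := by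
  intro h1
  have h2 : sSup ((fun y => ‖x - y‖) '' A) ≤ 7 / 4 :=
    csSup_le ⟨_, mem_image_of_mem _ hx⟩ (forall_mem_image.2 h)
  rw [h1] at h2
  norm_num at h2

end defs

abbrev W : Type := ℝ × c0 × c0

def φ (p : ℕ × Fin 5) (v : W) : ℝ :=
  ![v.2.1 p.1, v.1 - v.2.2 p.1 - (v.2.1 p.1 - v.2.1 (p.1 + 1)),
    v.1 - v.2.2 p.1 + (v.2.1 p.1 - v.2.1 (p.1 + 1)),
    v.2.2 p.1 + (v.2.1 p.1 - v.2.1 (p.1 + 1)) - v.2.1 0,
    v.2.2 p.1 - (v.2.1 p.1 - v.2.1 (p.1 + 1)) + v.2.1 0] p.2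

def B (v : W) (C : ℝ) (k : ℕ) : Prop :=
  |v.2.1 k| ≤ C ∧ |v.1 - v.2.2 k - (v.2.1 k - v.2.1 (k + 1))| ≤ C ∧
    |v.1 - v.2.2 k + (v.2.1 k - v.2.1 (k + 1))| ≤ C ∧
    |v.2.2 k + (v.2.1 k - v.2.1 (k + 1)) - v.2.1 0| ≤ C ∧
    |v.2.2 k - (v.2.1 k - v.2.1 (k + 1)) + v.2.1 0| ≤ C

lemma φ_iff (v : W) (C : ℝ) : (∀ p, |φ p v| ≤ C) ↔ ∀ k, B v C k := by
  simp [φ, B, Fin.forall_fin_succ]

lemma space : ∃ (X : Type) (_ : NormedAddCommGroup X) (_ : NormedSpace ℝ X)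
    (_ : CompleteSpace X) (e : W ≃L[ℝ] X), ∀ v C, ‖e v‖ ≤ C ↔ ∀ k, B v C k := by
  obtain ⟨X, i1, i2, i3, e, he⟩ := supnorm W φ (a := 1 / 2) (b := 4) (by
      rintro ⟨k, j⟩ x y
      fin_cases j <;> simp [φ] <;> ring) (by
      rintro ⟨k, j⟩ c x
      fin_cases j <;> simp [φ] <;> ring) (by norm_num)
    (fun p x => (φ_iff x _).2 (fun k => by
      have h1 : |x.1| ≤ ‖x‖ := norm_fst_le x
      have h2 : ∀ j, |x.2.1 j| ≤ ‖x‖ := fun j =>
        (abs_le_norm _ j).trans ((norm_fst_le x.2).trans (norm_snd_le x))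
      have h3 : |x.2.2 k| ≤ ‖x‖ :=
        (abs_le_norm _ k).trans ((norm_snd_le x.2).trans (norm_snd_le x))
      have h4 := h2 k
      have h5 := h2 (k + 1)
      have h6 := h2 0
      simp only [B, abs_le] at *
      refine ⟨⟨?_, ?_⟩, ⟨?_, ?_⟩, ⟨?_, ?_⟩, ⟨?_, ?_⟩, ?_, ?_⟩ <;>
        linarith [h1.1, h1.2, h3.1, h3.2, h4.1, h4.2, h5.1, h5.2, h6.1, h6.2]) p)
    fun x C h => by
      rw [φ_iff] at h
      have h0 : 0 ≤ C := (abs_nonneg _).trans (h 0).1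
      have h1 : ∀ k, |x.2.2 k| ≤ C ∧ |x.1| ≤ 2 * C := fun k => by
        obtain ⟨-, a, b, c, d⟩ := h k
        simp only [abs_le] at *
        refine ⟨⟨?_, ?_⟩, ?_, ?_⟩ <;> linarith [a.1, a.2, b.1, b.2, c.1, c.2, d.1, d.2]
      have h2 : ‖x‖ ≤ 2 * C := max_le (h1 0).2 (max_le
        (norm_le_of _ (by linarith) fun k => by linarith [(h k).1])
        (norm_le_of _ (by linarith) fun k => by linarith [(h1 k).1]))
      linarith
  exact ⟨X, i1, i2, i3, e, fun v C => by rw [he, φ_iff]⟩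

noncomputable def y (s : ℝ) (n : ℕ) : W := (1, s • ind n, u n)

lemma y_app (s : ℝ) (n k : ℕ) : (y s n).2.1 0 = s ∧ |(y s n).2.1 k| ≤ |s| ∧
    (y s n).2.1 k - (y s n).2.1 (k + 1) = s * (y s n).2.2 k ∧
      ((y s n).2.2 k = 0 ∨ (y s n).2.2 k = 1) := by
  change s * (if 0 ≤ n then 1 else 0) = s ∧ |s * (if k ≤ n then 1 else 0)| ≤ |s| ∧
    s * (if k ≤ n then 1 else 0) - s * (if k + 1 ≤ n then 1 else 0) =
      s * (if k = n then 1 else 0) ∧
    ((if k = n then 1 else 0 : ℝ) = 0 ∨ (if k = n then 1 else 0 : ℝ) = 1)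
  refine ⟨by simp, by split_ifs <;> simp, ?_, by split_ifs <;> simp⟩
  split_ifs <;> first | omega | simp

/-- An extreme Delta-point that is neither a ccs nor a super Delta-point. -/
theorem result : ∃ (X : Type) (_ : NormedAddCommGroup X) (_ : NormedSpace ℝ X)
    (_ : CompleteSpace X) (x : X), ‖x‖ = 1 ∧ x ∈ (closedBall (0 : X) 1).extremePoints ℝ ∧
      Delta x ∧ ¬ CcsDelta x ∧ ¬ SuperDelta x := by
  obtain ⟨X, i1, i2, i3, e, he⟩ := space
  have h1 : ‖e (1, 0, 0)‖ = 1 := le_antisymm ((he _ _).2 fun k => by simp [B])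
    (by simpa using ((he (1, 0, 0) _).1 le_rfl 0).2.1)
  let f : ℝ → StrongDual ℝ X := fun s => (ContinuousLinearMap.fst ℝ ℝ (c0 × c0) +
    s • (LinearMap.mkContinuous
      { toFun := fun v : W => v.2.1 0, map_add' := fun _ _ => rfl, map_smul' := fun _ _ => rfl } 1
      fun v => by
        rw [one_mul]
        exact (abs_le_norm _ 0).trans ((norm_fst_le v.2).trans (norm_snd_le v)))) ∘L
    (e.symm : X →L[ℝ] W)
  have hf : ∀ s v, f s (e v) = v.1 + s * v.2.1 0 := fun s v => by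
    change (e.symm (e v)).1 + s * (e.symm (e v)).2.1 0 = _
    rw [e.symm_apply_apply]
  have hf1 : ∀ s, f s (e (1, 0, 0)) = 1 := fun s => by simp [hf]
  have near : ∀ a b : W, ‖e a‖ ≤ 1 → ‖e b‖ ≤ 1 → 1 / 2 < f 1 (e a) → 1 / 2 < f (-1) (e b) →
      ‖e (1, 0, 0) - ((1 / 2 : ℝ) • e a + (1 / 2 : ℝ) • e b)‖ ≤ 7 / 4 := fun a b ha hb ka kb => by
    rw [hf] at ka kb
    rw [← map_smul, ← map_smul, ← map_add, ← map_sub, he]
    intro k
    obtain ⟨a1, a2, a3, a4, a5⟩ := (he _ _).1 ha k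
    obtain ⟨b1, b2, b3, b4, b5⟩ := (he _ _).1 hb k
    simp only [B, abs_le, Prod.fst_sub, Prod.snd_sub, Prod.fst_add, Prod.snd_add, Prod.smul_fst,
      Prod.smul_snd, smul_eq_mul, ZeroAtInftyContinuousMap.sub_apply,
      ZeroAtInftyContinuousMap.add_apply, ZeroAtInftyContinuousMap.smul_apply,
      ZeroAtInftyContinuousMap.zero_apply] at *
    refine ⟨⟨?_, ?_⟩, ⟨?_, ?_⟩, ⟨?_, ?_⟩, ⟨?_, ?_⟩, ?_, ?_⟩ <;>
      linarith [a1.1, a1.2, a2.1, a2.2, a3.1, a3.2, a4.1, a4.2, a5.1, a5.2,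
        b1.1, b1.2, b2.1, b2.2, b3.1, b3.2, b4.1, b4.2, b5.1, b5.2]
  refine ⟨X, i1, i2, i3, e (1, 0, 0), h1, ?_, fun g α _ hα hx => ?_, fun h => ?_, fun h => ?_⟩
  · refine mem_extremePoints_iff_left.2 ⟨mem_closedBall_zero_iff.2 h1.le, ?_⟩
    rintro a ha b hb ⟨s, t, hs, ht, hst, h⟩
    obtain ⟨a, rfl⟩ := e.surjective a
    obtain ⟨b, rfl⟩ := e.surjective b
    rw [mem_closedBall_zero_iff, he] at ha hb
    rw [← map_smul, ← map_smul, ← map_add, e.injective.eq_iff] at h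
    have e1 : s * a.1 + t * b.1 = 1 := congrArg (fun v : W => v.1) h
    have e2 : ∀ k, s * a.2.1 k + t * b.2.1 k = 0 := fun k => congrArg (fun v : W => v.2.1 k) h
    have e3 : ∀ k, s * a.2.2 k + t * b.2.2 k = 0 := fun k => congrArg (fun v : W => v.2.2 k) h
    have key : ∀ p q : ℝ, |p| ≤ 1 → |q| ≤ 1 → s * p + t * q = 1 → p = 1 := fun p q hp hq h => by
      nlinarith [(abs_le.1 hp).2, (abs_le.1 hq).2]
    have k1 := fun k => key _ _ (ha k).2.1 (hb k).2.1 (by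
      linear_combination e1 - e3 k - e2 k + e2 (k + 1))
    have k2 := fun k => key _ _ (ha k).2.2.1 (hb k).2.2.1 (by
      linear_combination e1 - e3 k + e2 k - e2 (k + 1))
    have k3 : ∀ k, a.2.2 k = a.1 - 1 := fun k => by linarith [k1 k, k2 k]
    have k4 : a.1 - 1 = 0 := tendsto_nhds_unique tendsto_const_nhds ((lim a.2.2).congr k3)
    have k5 : ∀ k, a.2.1 k = a.2.1 0 := fun k => by
      induction k with
      | zero => rfl
      | succ k ih => linarith [k1 k, k2 k]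
    have k6 : a.2.1 0 = 0 := tendsto_nhds_unique tendsto_const_nhds ((lim a.2.1).congr k5)
    congr 1
    refine Prod.ext (by linarith) (Prod.ext ?_ ?_)
    · ext k
      exact (k5 k).trans k6
    · ext k
      exact (k3 k).trans k4
  · have k1 := null (g ∘L (e : W →L[ℝ] X) ∘L ContinuousLinearMap.inr ℝ ℝ (c0 × c0) ∘L
      ContinuousLinearMap.inr ℝ c0 c0)
    obtain ⟨n, hn⟩ := (k1.eventually (lt_mem_nhds (sub_neg.2 hx.2))).exists
    change _ < g (e (0, 0, u n)) at hn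
    have k2 : g (e (y 1 n)) + g (e (y (-1) n)) = 2 * (g (e (1, 0, 0)) + g (e (0, 0, u n))) := by
      rw [two_mul]
      simp only [← map_add]
      congr 2
      refine Prod.ext (by simp [y]) (Prod.ext ?_ (by simp [y]))
      ext k
      simp [y]
    obtain ⟨s, hs, k3⟩ : ∃ s : ℝ, (s = 1 ∨ s = -1) ∧ ‖g‖ - α < g (e (y s n)) := by
      by_contra! k3
      linarith [k3 1 (.inl rfl), k3 (-1) (.inr rfl)]
    have k4 : ‖e (y s n)‖ ≤ 1 := (he _ _).2 fun k => by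
      obtain ⟨a, b, c, d⟩ := y_app s n k
      unfold B
      rw [c, a, show (y s n).1 = 1 from rfl]
      rcases hs with rfl | rfl <;> rcases d with d | d <;> rw [d] <;>
        exact ⟨by simpa using b, by norm_num⟩
    refine IsGreatest.csSup_eq ⟨⟨e (y s n), ⟨k4, k3⟩, le_antisymm ?_ ?_⟩, ?_⟩
    · linarith [norm_sub_le (e (1, 0, 0)) (e (y s n))]
    · obtain ⟨-, a, b, -⟩ := (he ((1, 0, 0) - y s n) _).1 le_rfl n
      have c := (y_app s n n).2.2.1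
      have d : (y s n).2.2 n = 1 := if_pos rfl
      rw [map_sub] at a b
      change |1 - 1 - (0 - (y s n).2.2 n) - (0 - (y s n).2.1 n - (0 - (y s n).2.1 (n + 1)))| ≤ _
        at a
      change |1 - 1 - (0 - (y s n).2.2 n) + (0 - (y s n).2.1 n - (0 - (y s n).2.1 (n + 1)))| ≤ _
        at b
      rw [d] at a b c
      rcases hs with rfl | rfl
      · linarith [(abs_le.1 a).2]
      · linarith [(abs_le.1 b).2]
    · rintro _ ⟨z, hz, rfl⟩
      linarith [norm_sub_le (e (1, 0, 0)) z, hz.1]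
  · have k1 : ∀ s, f s ≠ 0 ∧ 0 < ‖f s‖ - 1 / 2 := fun s => by
      have k2 := (f s).unit_le_opNorm _ h1.le
      rw [hf1, norm_one] at k2
      exact ⟨norm_pos_iff.1 (by linarith), by linarith⟩
    have k2 : ∀ s, e (1, 0, 0) ∈ slice (f s) (‖f s‖ - 1 / 2) := fun s =>
      ⟨h1.le, by rw [hf1]; linarith⟩
    have k3 : e (1, 0, 0) ∈ {z | ∃ y : Fin 2 → X, (∀ i, y i ∈ slice (f (![1, -1] i))
        (‖f (![1, -1] i)‖ - 1 / 2)) ∧ z = ∑ i, (1 / 2 : ℝ) • y i} :=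
      ⟨fun _ => e (1, 0, 0), fun i => k2 _, by rw [Fin.sum_univ_two, ← add_smul]; norm_num⟩
    refine not_far k3 ?_ (h _ ⟨2, fun i => f (![1, -1] i), fun i => ‖f (![1, -1] i)‖ - 1 / 2,
      fun _ => 1 / 2, fun i => ⟨(k1 _).1, (k1 _).2, by norm_num⟩, by norm_num, rfl⟩ k3)
    rintro _ ⟨z, hz, rfl⟩
    obtain ⟨a, ha⟩ := e.surjective (z 0)
    obtain ⟨b, hb⟩ := e.surjective (z 1)
    rw [Fin.sum_univ_two, ← ha, ← hb]
    exact near a b (ha ▸ (hz 0).1) (hb ▸ (hz 1).1) (ha ▸ by simpa using (hz 0).2)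
      (hb ▸ by simpa using (hz 1).2)
  · have k1 : ∀ s, IsOpen {x : WeakSpace ℝ X | 1 / 2 < f s ((toWeakSpace ℝ X).symm x)} :=
      fun s => isOpen_lt continuous_const
        (WeakBilin.eval_continuous (topDualPairing ℝ X).flip (f s))
    have k2 : ∀ s, 1 / 2 < f s (e (1, 0, 0)) := fun s => by rw [hf1]; norm_num
    refine not_far (A := closedBall (0 : X) 1 ∩ toWeakSpace ℝ X ⁻¹' (_ ∩ _))
      ⟨mem_closedBall_zero_iff.2 h1.le, k2 1, k2 (-1)⟩ ?_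
      (h _ ((k1 1).inter (k1 (-1))) ⟨k2 1, k2 (-1)⟩)
    rintro z ⟨hz, k3, k4⟩
    obtain ⟨a, rfl⟩ := e.surjective z
    rw [mem_closedBall_zero_iff] at hz
    have k5 := near a a hz hz k3 k4
    rwa [← add_smul, add_halves, one_smul] at k5

end Pool.Agent.Results.MP_0f3a14_an.ExtDelta
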